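import Mathlib
import Pool.Agent.H44.OS3

namespace Pool.Agent.Results.MP_1fe8eb_co.Q1True

open Pool.Agent.H44.OS

theorem result : ∃ N : ℤ, ∀ (n : ℕ) (G : SimpleGraph (Fin n)), G.IsTree →
    ∀ A : Equiv.Perm (Fin n) → ℕ, IsStop A → score G A ≤ (n : ℝ) / 4 + N :=
  ⟨1100, fun _ G hG _ hA => by exact_mod_cast score_le G hG.connected hA⟩

end Pool.Agent.Results.MP_1fe8eb_co.Q1True
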